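import Mathlib

/-!
# A weakly support-preserving endomorphism of `P(ℕ)` that is not of Boltzmann type

The 2-adic valuation extends to a valuation `v` on `ℝ`.  Sending `μ` to the point mass at the
smallest index at which `v (μ n)` is maximal is a weakly support-preserving endomorphism
(Gauss's lemma).
-/

set_option autoImplicit false

namespace Pool.Agent.Results.MP_aec1ed_pr.ExoticWeak

/-- Finitely supported probability measures on `ℕ = {0, 1, 2, …}`, written as functions. -/
@[ext] structure FProb where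
  /-- the mass function -/
  toFun : ℕ → ℝ
  nonneg : ∀ n, 0 ≤ toFun n
  finite : toFun.support.Finite
  mass : ∑ᶠ n, toFun n = 1

instance : CoeFun FProb (fun _ => ℕ → ℝ) := ⟨FProb.toFun⟩

theorem FProb.exists_pos (μ : FProb) : ∃ n, 0 < μ n := by
  by_contra hcon
  push Not at hcon
  have h0 : ∀ x, μ x = 0 := fun x => le_antisymm (hcon x) (μ.nonneg x)
  have := μ.mass
  simp only [h0, finsum_zero] at this
  exact zero_ne_one this

/-- The polynomial with the given coefficients. -/
noncomputable def toPoly (μ : FProb) : Polynomial ℝ :=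
  ⟨.ofCoeff (Finsupp.ofSupportFinite μ.toFun μ.finite)⟩

theorem coeff_toPoly (μ : FProb) (n : ℕ) : (toPoly μ).coeff n = μ n := rfl

theorem eval_one (p : Polynomial ℝ) : ∑ᶠ n, p.coeff n = p.eval 1 := by
  rw [Polynomial.eval_eq_sum, Polynomial.sum, finsum_eq_sum_of_support_subset (s := p.support)]
  · exact Finset.sum_congr rfl fun n _ => by rw [one_pow, mul_one]
  · intro n hn
    rw [Finset.mem_coe, Polynomial.mem_support_iff]
    exact hn

/-- Convolution: `(μ * ν)(n) = ∑_{i+j=n} μ(i) ν(j)`. -/
noncomputable def conv (μ ν : FProb) : FProb where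
  toFun n := ∑ p ∈ Finset.HasAntidiagonal.antidiagonal n, μ p.1 * ν p.2
  nonneg n := Finset.sum_nonneg fun p _ => mul_nonneg (μ.nonneg _) (ν.nonneg _)
  finite := by
    refine ((toPoly μ * toPoly ν).support.finite_toSet).subset ?_
    intro n hn
    rw [Finset.mem_coe, Polynomial.mem_support_iff, Polynomial.coeff_mul]
    exact hn
  mass := by
    have h : ∀ n, ∑ p ∈ Finset.HasAntidiagonal.antidiagonal n, μ p.1 * ν p.2 =
        (toPoly μ * toPoly ν).coeff n := by
      intro n
      rw [Polynomial.coeff_mul]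
      rfl
    simp only [h]
    rw [eval_one, Polynomial.eval_mul, ← eval_one, ← eval_one]
    simp only [coeff_toPoly]
    rw [μ.mass, ν.mass, one_mul]

/-- The point mass at `k`. -/
noncomputable def dirac (k : ℕ) : FProb where
  toFun n := if n = k then 1 else 0
  nonneg n := by split_ifs <;> norm_num
  finite := by
    refine (Set.finite_singleton k).subset ?_
    intro n hn
    by_contra h
    exact hn (if_neg h)
  mass := by
    rw [finsum_eq_single _ k fun n hn => if_neg hn, if_pos rfl]

theorem dirac_apply (k n : ℕ) : dirac k n = if n = k then 1 else 0 := rfl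

theorem conv_dirac (k l : ℕ) : conv (dirac k) (dirac l) = dirac (k + l) := by
  apply FProb.ext
  funext n
  show ∑ p ∈ Finset.HasAntidiagonal.antidiagonal n, dirac k p.1 * dirac l p.2 = dirac (k + l) n
  rw [dirac_apply]
  split_ifs with h
  · rw [Finset.sum_eq_single (k, l)]
    · rw [dirac_apply, dirac_apply, if_pos rfl, if_pos rfl, one_mul]
    · rintro ⟨i, j⟩ hp hne
      rw [dirac_apply, dirac_apply]
      by_cases hi : i = k
      · have hj : j ≠ l := by
          rintro rfl
          exact hne (by rw [hi])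
        rw [if_neg hj, mul_zero]
      · rw [if_neg hi, zero_mul]
    · intro hn
      exact absurd (Finset.HasAntidiagonal.mem_antidiagonal.2 h.symm) hn
  · apply Finset.sum_eq_zero
    rintro ⟨i, j⟩ hp
    rw [Finset.HasAntidiagonal.mem_antidiagonal] at hp
    rw [dirac_apply, dirac_apply]
    by_cases hi : i = k
    · have hj : j ≠ l := by
        rintro rfl
        apply h
        rw [← hp, hi]
      rw [if_neg hj, mul_zero]
    · rw [if_neg hi, zero_mul]

/-- The Boltzmann (tilting) map. -/
noncomputable def tilt (β : ℝ) (μ : FProb) : FProb where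
  toFun n := μ n * Real.exp (-β * n) / ∑ᶠ m, μ m * Real.exp (-β * m)
  nonneg n := div_nonneg (mul_nonneg (μ.nonneg n) (Real.exp_pos _).le)
    (finsum_nonneg fun m => mul_nonneg (μ.nonneg m) (Real.exp_pos _).le)
  finite := by
    refine μ.finite.subset ?_
    intro n hn
    rw [Function.mem_support] at hn ⊢
    intro h0
    apply hn
    rw [h0, zero_mul, zero_div]
  mass := by
    have hfin : (Function.support fun m : ℕ => μ m * Real.exp (-β * m)).Finite := by
      refine μ.finite.subset ?_
      intro n hn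
      rw [Function.mem_support] at hn ⊢
      intro h0
      apply hn
      rw [h0, zero_mul]
    have hpos : 0 < ∑ᶠ m : ℕ, μ m * Real.exp (-β * m) := by
      obtain ⟨n, hn⟩ := μ.exists_pos
      exact finsum_pos (fun m => mul_nonneg (μ.nonneg m) (Real.exp_pos _).le)
        ⟨n, mul_pos hn (Real.exp_pos _)⟩ hfin
    simp only [div_eq_mul_inv]
    rw [← finsum_mul, mul_inv_cancel₀ hpos.ne']

/-- The map `Φ_max`: the point mass at the largest point of the support. -/
noncomputable def phiMax (μ : FProb) : FProb := dirac (sSup μ.toFun.support)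

/-- The map `Φ_min`: the point mass at the smallest point of the support. -/
noncomputable def phiMin (μ : FProb) : FProb := dirac (sInf μ.toFun.support)

/-! ### The valuation -/

theorem exists_valuation : ∃ V : ValuationSubring ℝ, V.valuation 2 < 1 := by
  set A : Subring ℝ := (Int.castRingHom ℝ).range with hA
  have h2 : (2 : ℝ) ∈ A := ⟨2, by simp⟩
  set I : Ideal A := Ideal.span {(⟨2, h2⟩ : A)} with hI
  have hne : I ≠ ⊤ := by
    rw [hI, Ne, Ideal.span_singleton_eq_top]
    intro hu
    obtain ⟨b, hb⟩ := hu.exists_right_inv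
    obtain ⟨⟨_, ⟨k, rfl⟩⟩, hb'⟩ : ∃ c : A, c = b := ⟨b, rfl⟩
    rw [← hb'] at hb
    have h3 : (2 : ℝ) * (k : ℝ) = 1 := by
      have := congrArg Subtype.val hb
      simpa using this
    have h4 : (2 : ℤ) * k = 1 := by exact_mod_cast h3
    omega
  obtain ⟨V, hV1, hV2⟩ := Ideal.image_subset_nonunits_valuationSubring I hne
  refine ⟨V, ?_⟩
  have h5 : (2 : ℝ) ∈ V.nonunits := hV2 ⟨⟨2, h2⟩, Ideal.subset_span rfl, rfl⟩
  exact (ValuationSubring.mem_nonunits_iff V).1 h5

variable {Γ : Type*} [LinearOrderedCommGroupWithZero Γ] (v : Valuation ℝ Γ)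

/-- `n` is the smallest index at which `v (μ n)` is maximal. -/
def IsO (μ : FProb) (n : ℕ) : Prop := (∀ m, v (μ m) ≤ v (μ n)) ∧ ∀ m < n, v (μ m) < v (μ n)

theorem IsO.unique {μ : FProb} {n m : ℕ} (hn : IsO v μ n) (hm : IsO v μ m) : n = m := by
  rcases lt_trichotomy n m with h | h | h
  · exact absurd (hm.2 n h) (not_lt.2 (hn.1 m))
  · exact h
  · exact absurd (hn.2 m h) (not_lt.2 (hm.1 n))

theorem exists_isO (μ : FProb) : ∃ n, IsO v μ n := by
  classical
  have h1 : ∃ n, ∀ m, v (μ m) ≤ v (μ n) := by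
    obtain ⟨n0, hn0⟩ := μ.exists_pos
    obtain ⟨n, _, hn⟩ := Finset.exists_max_image μ.finite.toFinset (fun m => v (μ m))
      ⟨n0, by rw [Set.Finite.mem_toFinset]; exact hn0.ne'⟩
    refine ⟨n, fun m => ?_⟩
    by_cases h0 : μ m = 0
    · rw [h0, map_zero]
      exact zero_le
    · exact hn m (by rw [Set.Finite.mem_toFinset]; exact h0)
  refine ⟨Nat.find h1, Nat.find_spec h1, fun m hm => ?_⟩
  have h2 := Nat.find_min h1 hm
  push Not at h2
  obtain ⟨k, hk⟩ := h2
  exact hk.trans_le (Nat.find_spec h1 k)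

theorem IsO.ne_zero {μ : FProb} {n : ℕ} (hn : IsO v μ n) : μ n ≠ 0 := by
  intro h0
  obtain ⟨m, hm⟩ := μ.exists_pos
  have h1 := hn.1 m
  rw [h0, map_zero, le_zero_iff, map_eq_zero] at h1
  exact hm.ne' h1

/-- Gauss's lemma. -/
theorem IsO.conv {μ ν : FProb} {i j : ℕ} (hi : IsO v μ i) (hj : IsO v ν j) :
    IsO v (conv μ ν) (i + j) := by
  classical
  have hmu : 0 < v (μ i) := zero_lt_iff.2 ((map_ne_zero v).2 (hi.ne_zero v))
  have hnu : 0 < v (ν j) := zero_lt_iff.2 ((map_ne_zero v).2 (hj.ne_zero v))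
  have hpos : 0 < v (μ i * ν j) := by
    rw [map_mul]
    exact mul_pos hmu hnu
  have hle : ∀ k l, v (μ k * ν l) ≤ v (μ i * ν j) := by
    intro k l
    rw [map_mul, map_mul]
    exact mul_le_mul' (hi.1 k) (hj.1 l)
  have hlt : ∀ k l, k < i ∨ l < j → v (μ k * ν l) < v (μ i * ν j) := by
    intro k l hkl
    rw [map_mul, map_mul]
    rcases hkl with h | h
    · calc v (μ k) * v (ν l) ≤ v (μ k) * v (ν j) := mul_le_mul' le_rfl (hj.1 l)
        _ < v (μ i) * v (ν j) := mul_lt_mul_of_pos_right (hi.2 k h) hnu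
    · calc v (μ k) * v (ν l) ≤ v (μ i) * v (ν l) := mul_le_mul' (hi.1 k) le_rfl
        _ < v (μ i) * v (ν j) := mul_lt_mul_of_pos_left (hj.2 l h) hmu
  have hle' : ∀ m, v (ExoticWeak.conv μ ν m) ≤ v (μ i * ν j) := by
    intro m
    show v (∑ p ∈ Finset.HasAntidiagonal.antidiagonal m, μ p.1 * ν p.2) ≤ _
    exact v.map_sum_le fun p _ => hle p.1 p.2
  have hlt' : ∀ m < i + j, v (ExoticWeak.conv μ ν m) < v (μ i * ν j) := by
    intro m hm
    show v (∑ p ∈ Finset.HasAntidiagonal.antidiagonal m, μ p.1 * ν p.2) < _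
    refine v.map_sum_lt hpos.ne' ?_
    rintro ⟨k, l⟩ hp
    rw [Finset.HasAntidiagonal.mem_antidiagonal] at hp
    apply hlt
    dsimp only at hp
    omega
  have heq : v (ExoticWeak.conv μ ν (i + j)) = v (μ i * ν j) := by
    have h1 : ExoticWeak.conv μ ν (i + j) = μ i * ν j +
        ∑ p ∈ (Finset.HasAntidiagonal.antidiagonal (i + j)).erase (i, j), μ p.1 * ν p.2 := by
      show ∑ p ∈ Finset.HasAntidiagonal.antidiagonal (i + j), μ p.1 * ν p.2 = _
      rw [← Finset.add_sum_erase _ _ (Finset.HasAntidiagonal.mem_antidiagonal.2 rfl : (i, j) ∈ _)]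
    rw [h1]
    apply v.map_add_eq_of_lt_left
    refine v.map_sum_lt hpos.ne' ?_
    rintro ⟨k, l⟩ hp
    rw [Finset.mem_erase, Finset.HasAntidiagonal.mem_antidiagonal] at hp
    apply hlt
    obtain ⟨h2, h3⟩ := hp
    dsimp only at h3
    by_contra hcon
    push Not at hcon
    apply h2
    rw [Prod.mk.injEq]
    omega
  exact ⟨fun m => heq ▸ hle' m, fun m hm => heq ▸ hlt' m hm⟩

/-- The exotic endomorphism. -/
noncomputable def exotic (μ : FProb) : FProb := dirac (Classical.choose (exists_isO v μ))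

theorem exotic_eq {μ : FProb} {n : ℕ} (h : IsO v μ n) : exotic v μ = dirac n := by
  rw [exotic, (Classical.choose_spec (exists_isO v μ)).unique v h]

theorem exotic_conv (μ ν : FProb) : exotic v (conv μ ν) = conv (exotic v μ) (exotic v ν) := by
  obtain ⟨i, hi⟩ := exists_isO v μ
  obtain ⟨j, hj⟩ := exists_isO v ν
  rw [exotic_eq v hi, exotic_eq v hj, exotic_eq v (hi.conv v hj), conv_dirac]

theorem exotic_support (μ : FProb) : (exotic v μ).toFun.support ⊆ μ.toFun.support := by
  obtain ⟨i, hi⟩ := exists_isO v μ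
  rw [exotic_eq v hi]
  intro n hn
  rw [Function.mem_support] at hn ⊢
  have h : n = i := by
    by_contra h0
    exact hn (if_neg h0)
  rw [h]
  exact hi.ne_zero v

/-- The two point measure `(1 - t) δ_0 + t δ_1`. -/
noncomputable def two (t : ℝ) (h0 : 0 < t) (h1 : t < 1) : FProb where
  toFun n := if n = 0 then 1 - t else if n = 1 then t else 0
  nonneg n := by split_ifs <;> linarith
  finite := by
    refine (Set.toFinite ({0, 1} : Set ℕ)).subset ?_
    intro n hn
    by_contra h
    simp only [Set.mem_insert_iff, Set.mem_singleton_iff, not_or] at h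
    apply hn
    show (if n = 0 then 1 - t else if n = 1 then t else 0) = 0
    rw [if_neg h.1, if_neg h.2]
  mass := by
    rw [finsum_eq_sum_of_support_subset (s := {0, 1})]
    · rw [Finset.sum_pair (by norm_num)]
      simp
    · intro n hn
      by_contra h
      simp only [Finset.coe_insert, Finset.coe_singleton, Set.mem_insert_iff,
        Set.mem_singleton_iff, not_or] at h
      apply hn
      show (if n = 0 then 1 - t else if n = 1 then t else 0) = 0
      rw [if_neg h.1, if_neg h.2]

theorem two_zero (t : ℝ) (h0 : 0 < t) (h1 : t < 1) : two t h0 h1 0 = 1 - t := rfl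

theorem two_one (t : ℝ) (h0 : 0 < t) (h1 : t < 1) : two t h0 h1 1 = t := rfl

theorem two_other (t : ℝ) (h0 : 0 < t) (h1 : t < 1) {n : ℕ} (h2 : n ≠ 0) (h3 : n ≠ 1) :
    two t h0 h1 n = 0 := by
  show (if n = 0 then 1 - t else if n = 1 then t else 0) = 0
  rw [if_neg h2, if_neg h3]

theorem two_support (t : ℝ) (h0 : 0 < t) (h1 : t < 1) :
    (two t h0 h1).toFun.support = {0, 1} := by
  ext n
  simp only [Function.mem_support, Set.mem_insert_iff, Set.mem_singleton_iff]
  constructor
  · intro h
    by_contra h2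
    rw [not_or] at h2
    exact h (two_other t h0 h1 h2.1 h2.2)
  · rintro (rfl | rfl)
    · rw [two_zero]
      linarith
    · rw [two_one]
      exact h0.ne'

theorem dirac_ne {k l : ℕ} (h : k ≠ l) : dirac k ≠ dirac l := by
  intro h1
  have h2 := congrArg (fun μ : FProb => μ k) h1
  simp only [dirac_apply] at h2
  rw [if_pos trivial, if_neg h] at h2
  exact one_ne_zero h2

/-- **Negative answer.**  There is a weakly support-preserving endomorphism of `P(ℕ)` different
from all `Φ_β`, from `Φ_max` and from `Φ_min`. -/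
theorem result : ∃ Ψ : FProb → FProb,
    (∀ μ ν, Ψ (conv μ ν) = conv (Ψ μ) (Ψ ν)) ∧
    (∀ μ, (Ψ μ).toFun.support ⊆ μ.toFun.support) ∧
    (∀ β : ℝ, Ψ ≠ tilt β) ∧ Ψ ≠ phiMax ∧ Ψ ≠ phiMin := by
  obtain ⟨V, hV⟩ := exists_valuation
  set v := V.valuation with hv
  have v3 : v 3 ≤ 1 := by
    have h1 : (3 : ℝ) ∈ V := by
      have h8 := V.toSubring.add_mem V.toSubring.one_mem
        (V.toSubring.add_mem V.toSubring.one_mem V.toSubring.one_mem)
      have h9 : (1 : ℝ) + (1 + 1) = 3 := by norm_num
      rw [h9] at h8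
      exact h8
    exact V.valuation_le_one ⟨3, h1⟩
  have h3 : v 3 = 1 := by
    have h4 : v (3 : ℝ) = v (1 + 2) := by norm_num
    rw [h4, v.map_add_eq_of_lt_left (by rw [map_one]; exact hV), map_one]
  have h13 : v (1 / 3) = 1 := by rw [map_div₀, h3, map_one, div_one]
  have h23 : v (2 / 3) = v 2 := by rw [map_div₀, h3, div_one]
  have t1 : (0 : ℝ) < 2 / 3 := by norm_num
  have t2 : (2 / 3 : ℝ) < 1 := by norm_num
  have t3 : (0 : ℝ) < 1 / 3 := by norm_num
  have t4 : (1 / 3 : ℝ) < 1 := by norm_num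
  have c1 : (1 : ℝ) - 2 / 3 = 1 / 3 := by norm_num
  have c2 : (1 : ℝ) - 1 / 3 = 2 / 3 := by norm_num
  have a0 : IsO v (two (2 / 3) t1 t2) 0 := by
    refine ⟨fun m => ?_, fun m hm => absurd hm (Nat.not_lt_zero m)⟩
    rw [two_zero, c1, h13]
    by_cases m0 : m = 0
    · rw [m0, two_zero, c1, h13]
    · by_cases m1 : m = 1
      · rw [m1, two_one, h23]
        exact hV.le
      · rw [two_other _ _ _ m0 m1, map_zero]
        exact zero_le
  have a1 : IsO v (two (1 / 3) t3 t4) 1 := by
    refine ⟨fun m => ?_, fun m hm => ?_⟩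
    · rw [two_one, h13]
      by_cases m0 : m = 0
      · rw [m0, two_zero, c2, h23]
        exact hV.le
      · by_cases m1 : m = 1
        · rw [m1, two_one, h13]
        · rw [two_other _ _ _ m0 m1, map_zero]
          exact zero_le
    · have m0 : m = 0 := by omega
      rw [m0, two_zero, c2, h23, two_one, h13]
      exact hV
  have e0 := exotic_eq v a0
  have e1 := exotic_eq v a1
  refine ⟨exotic v, exotic_conv v, exotic_support v, ?_, ?_, ?_⟩
  · intro β h
    rw [h] at e0
    have h5 := congrArg (fun μ : FProb => μ 1) e0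
    simp only [dirac_apply] at h5
    rw [if_neg one_ne_zero] at h5
    have h6 : (tilt β (two (2 / 3) t1 t2)).toFun 1 = two (2 / 3) t1 t2 1 *
        Real.exp (-β * (1 : ℕ)) / ∑ᶠ m : ℕ, two (2 / 3) t1 t2 m * Real.exp (-β * m) := rfl
    have hfin : (Function.support fun m : ℕ =>
        two (2 / 3) t1 t2 m * Real.exp (-β * m)).Finite := by
      refine (two (2 / 3) t1 t2).finite.subset ?_
      intro n hn
      rw [Function.mem_support] at hn ⊢
      intro h0
      apply hn
      rw [h0, zero_mul]
    have hpos : 0 < ∑ᶠ m : ℕ, two (2 / 3) t1 t2 m * Real.exp (-β * m) := by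
      refine finsum_pos (fun m => mul_nonneg ((two (2 / 3) t1 t2).nonneg m) (Real.exp_pos _).le)
        ⟨1, mul_pos ?_ (Real.exp_pos _)⟩ hfin
      rw [two_one]
      exact t1
    rw [h6, two_one] at h5
    have h7 : 0 < 2 / 3 * Real.exp (-β * (1 : ℕ)) /
        ∑ᶠ m : ℕ, two (2 / 3) t1 t2 m * Real.exp (-β * m) :=
      div_pos (mul_pos t1 (Real.exp_pos _)) hpos
    exact h7.ne' h5
  · intro h
    rw [h] at e0
    have h5 : phiMax (two (2 / 3) t1 t2) = dirac 1 := by
      rw [phiMax, two_support]
      congr 1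
      rw [csSup_pair]
      rfl
    rw [h5] at e0
    exact dirac_ne one_ne_zero e0
  · intro h
    rw [h] at e1
    have h5 : phiMin (two (1 / 3) t3 t4) = dirac 0 := by
      rw [phiMin, two_support]
      congr 1
      rw [csInf_pair]
      rfl
    rw [h5] at e1
    exact dirac_ne zero_ne_one e1

end Pool.Agent.Results.MP_aec1ed_pr.ExoticWeak
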